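import Pool.Agent.Helper320.PCH.FinP

/-!
# Logarithmic Kodaira dimension and `A¹`-uniruledness for the images of products of open curves

Let `U i = C i \ B i`, `1 ≤ i ≤ n`, be any smooth curves over `ℂ`: `C i` is smooth and projective, and
`B i` is a finite set of points, which may be empty. Let `γ i` be at most the gonality of `U i`, the
smallest degree of a nonconstant function on `C i` which vanishes at all points of `B i`, that is of a
finite map onto the affine line of an open subset of `U i` (of a map of `C i` onto the line if `B i` is
empty). For example, the gonality of `ℙ¹` minus `b ≥ 1` points is `b`, and it is at least `b` for all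
`U i` with `b` points in the boundary.

Let `X` be a smooth variety with a smooth compactification `W` and boundary `D = W \ X` with normal
crossings, and let `U = U 1 × ... × U n → X` be a proper surjective morphism which is finite over a
general point; it need not be a quotient by a group, and nothing is assumed on its ramification. (More
generally, a dominant rational map is sufficient such that a place of `ℂ(U)` with values in `ℤ` has a
centre on `U` if and only if its restriction to `ℂ(X)` has a centre on `X`.) For a set `S` of factors
let `d(S)` be the degree over `X` of the image of `U` in `X × ∏ (i ∈ S) U i`; so `d(∅) = 1`, and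
`d(all)` is the degree of `U → X`.

Simplest case: suppose that for every set `J` of at least two factors, with complement `J'`,
  `d(all) ≤ d(J') (1 + ∑ (i ∈ J) (γ i - 2)⁺)`.
Then Q1 holds for `X`: `X` is `A¹`-uniruled if and only if `κ̄(X) = -∞`. Moreover this is the case if
and only if `K_W + D` has no section, and if and only if `K_W + D` is not pseudo-effective. (Nothing is
assumed on the sets `J` with one element.)

In the theorem the factors can moreover be divided into successive blocks: `b i` is the number of the
block of the factor `i`. The condition is
  `d(S) ≤ d(S \ J) (1 + ∑ (i ∈ J) (γ i - 2)⁺)`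
for every block, where `S` is the set of the factors in the blocks up to this one, and all nonempty
sets `J` of factors in this block, except those with one element in the last block.

Examples. (1) All gonalities are at least `γ` and the degree of `U → X` is at most `2 γ - 3`. (2) Each
block has one factor: the degree of the image of `U` in `X × U 1 × ... × U k` over its image in
`X × U 1 × ... × U (k - 1)` is less than `γ k`, for all `k < n`; the last curve is arbitrary. (3) If
all gonalities are at least `γ = c + 2` and `d(all) ≤ (r + 1) c + 1`, then the condition can fail only
for sets `J` of at most `r` elements with `d(J') ≤ r / |J|`.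

Proof. Let `L = ℂ(X)`. The traces of the products of logarithmic differentials of the `(C i, B i)` are
sections of `K_W + D`. If they vanish then this is a linear relation between the evaluations of these
products at the conjugates over `L` of the generic point of `U`. By the theorem of Riemann-Roch the
logarithmic differentials separate a point of `C i` from `γ i - 2` other points not in `B i`, over all
extensions of the field of constants. The marriage theorem of Hall, applied to the conjugates and the
coordinates in which they differ from the generic point, distributes the zeros such that all terms of
the relation vanish but one, if the condition holds for all sets `J`. So it fails for `J = {j}` with `j`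
in the last block. Then the conditions for the sets `J ∪ {j}` imply the conditions for the image `X'` of
`U` in `X × ∏ (i ≠ j) U i`, and Hall's theorem shows that the traces to `X'` vanish. The geometric
generic fibre of `X'` over `∏ (i ≠ j) U i` is a curve whose logarithmic differentials are traces of
those of `U j`; so it is the line with at most one point in the boundary, as in the case of small degree
`MP_e06174_ag.ImagesOfCurveProducts` for projective curves.

The function-field language of the starting repository is used: `L = ℂ(X)`, and `Bd` is the set of the
places of `L` without centre on `X`; a form (`IsPluri 1`) on a variety of dimension `n` is a function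
of `n` rational vector fields; `LogSec ℂ L n 1 Bd ω` says that `ω` is a section of `K_W + D`: a form with
at most logarithmic poles at all prime divisors, and regular at those which are not in `Bd`;
`KodGe ℂ L n Bd 0` says that `κ(K_W + D) ≥ 0`, `Psef ℂ L n Bd` that `K_W + D` is pseudo-effective
(`Pool/Agent/W602/GT`), `IsA1Uniruled ℂ L n Bd` that `X` is `A¹`-uniruled
(`Pool/Agent/W619/PL/LDefs.lean`), and `Over Q P e` that the place `Q` lies over the place `P`, with
ramification index `e ≥ 1`. Subtraction of natural numbers is truncated: `γ i - 2` is `0` if
`γ i ≤ 2`.
-/

set_option autoImplicit false
set_option linter.overlappingInstances false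

open FF Pool.Agent.W602.GT
open Pool.Agent.W619.PL (IsA1Uniruled)

namespace Pool.Agent.Results.MP_410da7_ag.OpenCurveProductImages

/-- `K_W + D` has no section: the only canonical form with at most logarithmic poles which is regular
at the prime divisors that are not in the boundary is `0`. -/
def LogGenusZero (L : Type) [Field L] [Algebra ℂ L] (n : ℕ) (Bd : Place ℂ L → Prop) : Prop :=
  ∀ ω : (Fin n → Derivation ℂ L L) → L, LogSec ℂ L n 1 Bd ω → ∀ D, ω D = 0

/-- `F` is the function field of a curve. -/
def IsCurveField (F : Type) [Field F] [Algebra ℂ F] : Prop :=
  Algebra.EssFiniteType ℂ F ∧ Algebra.trdeg ℂ F = 1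

/-- The gonality of the open curve with the function field `F` and the boundary `B` is at least `γ`:
all nonconstant functions which vanish at the points of `B` have degree at least `γ`. -/
def GonalityGe (F : Type) [Field F] [Algebra ℂ F] (B : Finset (Place ℂ F)) (γ : ℕ) : Prop :=
  ∀ t : F, Transcendental ℂ t → (∀ P ∈ B, 0 < P.ord t) →
    γ ≤ Module.finrank (IntermediateField.adjoin ℂ {t}) F

/-- The boundary of the product of the open curves: the places which lie over a boundary point of one
of the factors, that is the places without centre on `U`. -/
def Boundary {K : Type} [Field K] [Algebra ℂ K] {n : ℕ} (F : Fin n → IntermediateField ℂ K)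
    (B : ∀ i, Finset (Place ℂ (F i))) (Q : Place ℂ K) : Prop :=
  ∃ i, ∃ p ∈ B i, ∃ e : ℕ, Over Q p e

/-- The degree `d(S)` over `X` of the image of `U` in the product of `X` and the curves with the
function fields `F i`, `i ∈ S`: the degree over `L` of the compositum of `L` and these fields. -/
noncomputable def imageDegree {K : Type} [Field K] [Algebra ℂ K] (L : Type) [Field L]
    [Algebra L K] {n : ℕ} (F : Fin n → IntermediateField ℂ K) (S : Finset (Fin n)) : ℕ :=
  Module.finrank L (IntermediateField.adjoin L (⋃ i ∈ S, (F i : Set K)))

/-- **Images of products of open curves.** Let `U` be the product of `n ≥ 1` open curves with the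
function fields `F i`, which are subfields of the function field `K` of `U`, and the boundaries `B i`,
of gonality at least `γ i`, and let `L` be a subfield of `K` of finite index, the function field of a
smooth variety `X = W \ D` with boundary `Bd`, such that a place of `K` is in the boundary of `U` if and
only if the place of `L` below it is in `Bd`. Let the factors be divided into blocks by `b`, such that
for all `k` and all nonempty sets `J` of factors in the block `k`, except those with one element in the
last block, `d({i | b i ≤ k}) ≤ d({i | b i ≤ k} \ J) (1 + ∑ (i ∈ J) (γ i - 2))`. Then `K_W + D` has no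
section if and only if `κ̄(X) = -∞`, if and only if `K_W + D` is not pseudo-effective, if and only if
`X` is `A¹`-uniruled. -/
theorem result {n : ℕ} (hn : 1 ≤ n) {K : Type} [Field K] [Algebra ℂ K]
    (hK : Algebra.trdeg ℂ K = n) (F : Fin n → IntermediateField ℂ K)
    (hF : ∀ i, IsCurveField (F i)) (hsup : ⨆ i, F i = ⊤) (B : ∀ i, Finset (Place ℂ (F i)))
    (γ : Fin n → ℕ) (hγ : ∀ i, GonalityGe (F i) (B i) (γ i))
    (L : Type) [Field L] [Algebra ℂ L] [Algebra L K] [IsScalarTower ℂ L K]
    [FiniteDimensional L K] (Bd : Place ℂ L → Prop)
    (hBd : ∀ (P : Place ℂ L) (Q : Place ℂ K) (e : ℕ), Over Q P e → (Bd P ↔ Boundary F B Q))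
    (b : Fin n → ℕ)
    (h : ∀ (k : ℕ) (J : Finset (Fin n)), J.Nonempty → (∀ i ∈ J, b i = k) →
      (2 ≤ J.card ∨ ∃ i, k < b i) →
      imageDegree L F (Finset.univ.filter fun i => b i ≤ k) ≤
        imageDegree L F (Finset.univ.filter fun i => b i ≤ k ∧ i ∉ J) *
          (∑ i ∈ J, (γ i - 2) + 1)) :
    [LogGenusZero L n Bd, ¬ KodGe ℂ L n Bd 0, ¬ Psef ℂ L n Bd, IsA1Uniruled ℂ L n Bd].TFAE :=
  Pool.Agent.Helper320.PCH.fin_prodA hn hK F (fun i => ⟨(hF i).1, (hF i).2⟩) B hsup γ hγ L Bd hBd b
    h

end Pool.Agent.Results.MP_410da7_ag.OpenCurveProductImages
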